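import Pool.Agent.Lib.Pad47bbK.Pair

/-!
Consequences of the cone theorem for klt Calabi-Yau pairs: a class which is not nef is detected by a
curve class of bounded degree on the components of the boundary.
-/

open Set Topology

namespace Pool.Agent.Lib.Pad47bbK

open Pool.Agent.Lib.Pad47bb Pool.Agent.Lib.Pad47bbB Pool.Agent.Lib.Pad47bbV

variable {V : Type*} [NormedAddCommGroup V] [NormedSpace ℝ V]

/-- The smallest positive multiple of a functional which is integral on the lattice. -/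
theorem exists_primitive (L : Submodule ℤ V)
    (z : V →L[ℝ] ℝ) (hz : ∃ x ∈ L, z x ≠ 0)
    (h : ∃ t : ℝ, 0 < t ∧ ∀ x ∈ L, ∃ k : ℤ, t * z x = k) :
    ∃ t : ℝ, (0 < t ∧ ∀ x ∈ L, ∃ k : ℤ, t * z x = k) ∧
      ∀ s : ℝ, 0 < s → (∀ x ∈ L, ∃ k : ℤ, s * z x = k) → t ≤ s := by
  classical
  obtain ⟨x, hxL, hx⟩ := hz
  have hx' : 0 < |z x| := abs_pos.2 hx
  -- the positive integers `t |z x|`
  have key : ∀ t : ℝ, 0 < t → (∀ y ∈ L, ∃ k : ℤ, t * z y = k) → ∃ k : ℕ, t * |z x| = k := by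
    intro t ht hint
    obtain ⟨k, hk⟩ := hint x hxL
    refine ⟨k.natAbs, ?_⟩
    rw [Nat.cast_natAbs, Int.cast_abs, ← hk, abs_mul, abs_of_pos ht]
  let A : Set ℕ := {k | ∃ t : ℝ, 0 < t ∧ (∀ y ∈ L, ∃ k : ℤ, t * z y = k) ∧ t * |z x| = k}
  have hA : A.Nonempty := by
    obtain ⟨t, ht, hint⟩ := h
    obtain ⟨k, hk⟩ := key t ht hint
    exact ⟨k, t, ht, hint, hk⟩
  obtain ⟨t, ht, hint, htk⟩ := Nat.sInf_mem hA
  refine ⟨t, ⟨ht, hint⟩, fun s hs hsint => ?_⟩
  obtain ⟨k, hk⟩ := key s hs hsint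
  have h1 : sInf A ≤ k := Nat.sInf_le ⟨s, hs, hsint, hk⟩
  have h2 : ((sInf A : ℕ) : ℝ) ≤ k := by exact_mod_cast h1
  rw [← htk, ← hk] at h2
  exact le_of_mul_le_mul_right h2 hx'

variable [FiniteDimensional ℝ V]

/-- A class which is not nef is negative either on a nonnegative functional vanishing on all the
components of the boundary (and nonnegative on the finite set `S` of effective classes), or on an
integral one which is bounded on the components (and bounded below on `S`). -/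
theorem KltPair.exists_detect (P : KltPair V) [DiscreteTopology P.L] [IsZLattice ℝ P.L]
    (S : Finset V) (hS : ∀ y ∈ S, y ∈ P.eff) :
    ∃ B : ℝ, ∀ x : V, x ∉ P.nef → ∃ z : V →L[ℝ] ℝ, (∀ y ∈ P.nef, 0 ≤ z y) ∧ z x < 0 ∧
      (((∀ p ∈ P.comp, z p = 0) ∧ ∀ y ∈ S, 0 ≤ z y) ∨
        ((∀ y ∈ P.L, ∃ k : ℤ, z y = k) ∧ (∀ p ∈ P.comp, |z p| ≤ B) ∧ ∀ y ∈ S, -B ≤ z y)) := by
  classical
  -- a common `ε`
  have hS0 : ∀ y ∈ insert 0 S, y ∈ P.eff := by
    intro y hy
    rcases Finset.mem_insert.1 hy with rfl | hy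
    · exact P.eff.zero_mem
    · exact hS y hy
  have hnear : ∀ y : V, ∃ ε : ℝ, 0 < ε ∧ (y ∈ insert 0 S → ∀ b : V → ℝ,
      (∀ p ∈ P.comp, |b p| ≤ ε) → ε • y + ∑ p ∈ P.comp, b p • p ∈ P.klt) := by
    intro y
    by_cases hy : y ∈ insert 0 S
    · obtain ⟨ε, hε, h⟩ := P.near y (hS0 y hy)
      exact ⟨ε, hε, fun _ => h⟩
    · exact ⟨1, one_pos, fun h => absurd h hy⟩
  choose ε hε hk using hnear
  refine ⟨∑ y ∈ insert 0 S, 2 * (P.dim : ℝ) / ε y, fun x hx => ?_⟩
  obtain ⟨z, hz, hzx⟩ := exists_extremalRay P.isClosed_nef P.interior_nef_nonempty hx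
  by_cases hcase : (∀ p ∈ P.comp, z p = 0) ∧ ∀ y ∈ S, 0 ≤ z y
  · exact ⟨z, hz.2.1, hzx, Or.inl hcase⟩
  -- the test classes
  set σ : V → ℝ := fun p => -(SignType.sign (z p) : ℝ) with hσ
  have hσz : ∀ p, σ p * z p = -|z p| := by
    intro p
    rw [hσ]
    show -(SignType.sign (z p) : ℝ) * z p = -|z p|
    rw [neg_mul, sign_mul_self]
  have hσ1 : ∀ p, |σ p| ≤ 1 := by
    intro p
    rw [hσ]
    show |-(SignType.sign (z p) : ℝ)| ≤ 1
    rw [abs_neg]
    rcases lt_trichotomy (z p) 0 with h | h | h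
    · rw [sign_neg h]; simp
    · rw [h]; simp
    · rw [sign_pos h]; simp
  set w : V → V := fun y => ε y • y + ∑ p ∈ P.comp, (ε y * σ p) • p with hw
  have hwk : ∀ y ∈ insert 0 S, w y ∈ P.klt := by
    intro y hy
    refine hk y hy (fun p => ε y * σ p) fun p _ => ?_
    rw [abs_mul, abs_of_pos (hε y)]
    have := hσ1 p
    have := (hε y).le
    nlinarith
  set A : ℝ := ∑ p ∈ P.comp, |z p| with hA
  have hA0 : 0 ≤ A := Finset.sum_nonneg fun p _ => abs_nonneg _
  have hzw : ∀ y, z (w y) = ε y * (z y - A) := by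
    intro y
    rw [hw]
    show z (ε y • y + ∑ p ∈ P.comp, (ε y * σ p) • p) = _
    rw [map_add, map_smul, map_sum, smul_eq_mul, mul_sub, hA, Finset.mul_sum, sub_eq_add_neg,
      ← Finset.sum_neg_distrib]
    congr 1
    refine Finset.sum_congr rfl fun p _ => ?_
    rw [map_smul, smul_eq_mul, mul_assoc, hσz]
    ring
  -- some test class is negative on `z`
  have hneg : ∃ y ∈ insert 0 S, z (w y) < 0 := by
    by_contra hcon
    push Not at hcon
    apply hcase
    have h0 := hcon 0 (Finset.mem_insert_self _ _)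
    rw [hzw, map_zero, zero_sub] at h0
    have hA1 : A ≤ 0 := by
      by_contra hlt
      push Not at hlt
      have := mul_pos (hε 0) hlt
      nlinarith
    have hAe : A = 0 := le_antisymm hA1 hA0
    constructor
    · intro p hp
      have h1 : |z p| ≤ A := Finset.single_le_sum (f := fun p => |z p|)
        (fun q _ => abs_nonneg _) hp
      have h2 : |z p| = 0 := le_antisymm (by linarith) (abs_nonneg _)
      exact abs_eq_zero.1 h2
    · intro y hy
      have h1 := hcon y (Finset.mem_insert_of_mem hy)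
      rw [hzw, hAe, sub_zero] at h1
      exact nonneg_of_mul_nonneg_right h1 (hε y)
  obtain ⟨y₀, hy₀, hy₀w⟩ := hneg
  have hzL : ∃ x ∈ P.L, z x ≠ 0 := by
    by_contra hcon
    push Not at hcon
    apply hz.1
    have hspan := IsZLattice.span_top (K := ℝ) (L := P.L)
    have : (z : V →ₗ[ℝ] ℝ) = 0 :=
      LinearMap.ext_on (s := (P.L : Set V)) hspan (fun x hx => hcon x hx)
    ext v
    exact congrArg (fun f : V →ₗ[ℝ] ℝ => f v) this
  obtain ⟨t, ⟨ht, htint⟩, htmin⟩ := exists_primitive P.L z hzL (by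
    obtain ⟨t, ht, hint, -⟩ := P.cone _ (hwk y₀ hy₀) z hz hy₀w
    exact ⟨t, ht, hint⟩)
  have hbound : ∀ y ∈ insert 0 S, t * (A - z y) ≤ 2 * P.dim / ε y := by
    intro y hy
    rw [le_div_iff₀ (hε y)]
    by_cases hlt : z (w y) < 0
    · obtain ⟨s, hs, hsint, hs2⟩ := P.cone _ (hwk y hy) z hz hlt
      have h1 := htmin s hs hsint
      have h2 : -(t * z (w y)) ≤ -(s * z (w y)) := by nlinarith
      rw [hzw] at h2 hs2
      nlinarith
    · push Not at hlt
      rw [hzw] at hlt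
      have h1 : (0 : ℝ) ≤ 2 * P.dim := by positivity
      nlinarith
  have hBmem : ∀ y ∈ insert 0 S, 2 * (P.dim : ℝ) / ε y ≤
      ∑ y ∈ insert 0 S, 2 * (P.dim : ℝ) / ε y := fun y hy =>
    Finset.single_le_sum (f := fun y => 2 * (P.dim : ℝ) / ε y)
      (fun q _ => by have := (hε q).le; positivity) hy
  refine ⟨t • z, fun y hy => ?_, ?_, Or.inr ⟨?_, ?_, ?_⟩⟩
  · rw [smul_apply, smul_eq_mul]
    exact mul_nonneg ht.le (hz.2.1 y hy)
  · rw [smul_apply, smul_eq_mul]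
    exact mul_neg_of_pos_of_neg ht hzx
  · intro y hy
    obtain ⟨k, hk⟩ := htint y hy
    exact ⟨k, by rw [smul_apply, smul_eq_mul, hk]⟩
  · intro p hp
    have h1 : |z p| ≤ A := Finset.single_le_sum (f := fun p => |z p|)
      (fun q _ => abs_nonneg _) hp
    have h2 := hbound 0 (Finset.mem_insert_self _ _)
    have h3 := hBmem 0 (Finset.mem_insert_self _ _)
    rw [map_zero, sub_zero] at h2
    rw [smul_apply, smul_eq_mul, abs_mul, abs_of_pos ht]
    nlinarith
  · intro y hy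
    have h2 := hbound y (Finset.mem_insert_of_mem hy)
    have h3 := hBmem y (Finset.mem_insert_of_mem hy)
    rw [smul_apply, smul_eq_mul]
    nlinarith

/-- The cone theorem in the form used for the cone conjecture modulo the boundary. -/
theorem KltPair.exists_bdCone (P : KltPair V) [DiscreteTopology P.L] [IsZLattice ℝ P.L] :
    ∃ Ξ : Set (V →L[ℝ] ℝ), BdCone P.L P.nef P.comp Ξ := by
  classical
  obtain ⟨B, hB⟩ := P.exists_detect ∅ (fun y hy => absurd hy (Finset.notMem_empty y))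
  refine ⟨{ξ | (∀ x ∈ P.L, ∃ k : ℤ, ξ x = k) ∧ (∀ x ∈ P.nef, 0 ≤ ξ x) ∧
    ∀ p ∈ P.comp, |ξ p| ≤ B}, P.comp_lattice, fun ξ hξ => hξ.1, fun ξ hξ => hξ.2.1,
    ⟨B, fun ξ hξ => hξ.2.2⟩, fun x h1 h2 => ?_⟩
  by_contra hx
  obtain ⟨z, hz0, hzx, hz⟩ := hB x hx
  rcases hz with hz | hz
  · exact absurd (h1 z hz0 hz.1) (not_le.2 hzx)
  · exact absurd (h2 z ⟨hz.1, hz0, hz.2.1⟩) (not_le.2 hzx)

end Pool.Agent.Lib.Pad47bbK
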