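import Pool.Agent.Lib.Pad47bbB.Poly
import Pool.Agent.Lib.Pad47bbV.Defs

/-!
Klt Calabi-Yau pairs: the record of the facts of birational geometry which we use.

Dictionary. `(X, Δ)` is a projective `ℚ`-factorial klt pair of dimension `n` with `K_X + Δ ≡ 0` and
`D_1, …, D_r` are the irreducible components of `Δ`. Then `V = N¹(X)_ℝ`, `L` = classes of the Cartier
divisors, `nef = Nef(X)`, `eff = Eff(X)` (generated by the classes of the effective divisors),
`aut` = image of `Aut(X, Δ)`, `comp` = the classes of `m D_1, …, m D_r` where `m > 0` is an integer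
with `m D_j` Cartier, `klt` = the classes of `K_X + B` for all klt pairs `(X, B)`.
-/

open Set Topology

namespace Pool.Agent.Lib.Pad47bbK

open Pool.Agent.Lib.Pad47bb Pool.Agent.Lib.Pad47bbB Pool.Agent.Lib.Pad47bbV

variable {V : Type*} [NormedAddCommGroup V] [NormedSpace ℝ V]

/-- `z` spans an extremal ray of the dual cone of `N` (for `N = Nef(X)`, of the closed cone of
curves). -/
def IsExtremalRay (N : PointedCone ℝ V) (z : V →L[ℝ] ℝ) : Prop :=
  z ≠ 0 ∧ (∀ x ∈ N, 0 ≤ z x) ∧ ∀ a b : V →L[ℝ] ℝ,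
    (∀ x ∈ N, 0 ≤ a x) → (∀ x ∈ N, 0 ≤ b x) → a + b = z → ∃ t : ℝ, a = t • z

/-- The facts which we use of a projective `ℚ`-factorial klt Calabi-Yau pair `(X, Δ)`. -/
structure KltPair (V : Type*) [NormedAddCommGroup V] [NormedSpace ℝ V] where
  /-- the dimension of `X` -/
  dim : ℕ
  /-- the lattice of the classes of Cartier divisors -/
  L : Submodule ℤ V
  /-- the nef cone -/
  nef : PointedCone ℝ V
  /-- the effective cone -/
  eff : PointedCone ℝ V
  /-- the action of `Aut(X, Δ)` -/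
  aut : Subgroup (V ≃ₗ[ℝ] V)
  /-- the classes of the components of `Δ`, times `m` -/
  comp : Finset V
  /-- the classes of the divisors `K_X + B` with `(X, B)` klt -/
  klt : Set V
  isClosed_nef : IsClosed (nef : Set V)
  interior_nef_nonempty : (interior (nef : Set V)).Nonempty
  nef_subset : (nef : Set V) ⊆ closure (eff : Set V)
  ample_subset : interior (nef : Set V) ⊆ eff
  eff_eq : eff = PointedCone.hull ℝ ((eff : Set V) ∩ (L : Set V))
  eff_salient : ∀ x ∈ closure (eff : Set V), -x ∈ closure (eff : Set V) → x = 0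
  map_lattice : ∀ g ∈ aut, ∀ x ∈ L, g x ∈ L
  map_nef : ∀ g ∈ aut, ∀ x ∈ nef, g x ∈ nef
  map_eff : ∀ g ∈ aut, ∀ x ∈ eff, g x ∈ eff
  map_comp : ∀ g ∈ aut, ∀ p ∈ comp, g p ∈ comp
  comp_lattice : ∀ p ∈ comp, p ∈ L
  comp_eff : ∀ p ∈ comp, p ∈ eff
  /-- klt is an open condition: `K_X + Δ + Σ b_j m D_j + ε E ≡ ε E + Σ b_j m D_j`. -/
  near : ∀ x ∈ eff, ∃ ε : ℝ, 0 < ε ∧ ∀ b : V → ℝ, (∀ p ∈ comp, |b p| ≤ ε) →
    ε • x + ∑ p ∈ comp, b p • p ∈ klt
  /-- the cone theorem: a `(K_X + B)`-negative extremal ray of the closed cone of curves is spanned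
  by a curve `C` with `-(K_X + B) · C ≤ 2 n`. -/
  cone : ∀ w ∈ klt, ∀ z : V →L[ℝ] ℝ, IsExtremalRay nef z → z w < 0 →
    ∃ t : ℝ, 0 < t ∧ (∀ x ∈ L, ∃ k : ℤ, t * z x = k) ∧ -(t * z w) ≤ 2 * dim
  /-- the base point free theorem: a nef Cartier divisor `x` such that `a x - (K_X + B)` is ample for
  some `a > 0` is semiample. -/
  bpf : ∀ x ∈ L, x ∈ nef → ∀ w ∈ klt, ∀ a : ℝ, 0 < a → a • x - w ∈ interior (nef : Set V) →
    x ∈ eff

section extremal

variable [FiniteDimensional ℝ V]

omit [FiniteDimensional ℝ V] in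
/-- A functional which is nonnegative on `N` and vanishes at an interior point is zero. -/
theorem eq_zero_of_interior {N : PointedCone ℝ V} {e : V} (he : e ∈ interior (N : Set V))
    (a : V →L[ℝ] ℝ) (ha : ∀ x ∈ N, 0 ≤ a x) (hae : a e = 0) : a = 0 := by
  obtain ⟨δ, hδ, hball⟩ := Metric.isOpen_iff.1 isOpen_interior e he
  ext v
  rw [zero_apply]
  set c : ℝ := δ / (2 * (1 + ‖v‖)) with hc
  have hc0 : 0 < c := by positivity
  have hcv : ‖c • v‖ < δ := by
    rw [norm_smul, Real.norm_of_nonneg hc0.le, hc, div_mul_eq_mul_div, div_lt_iff₀ (by positivity)]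
    nlinarith [norm_nonneg v]
  have h1 : e + c • v ∈ N := interior_subset (hball (by
    simpa [Metric.mem_ball, dist_eq_norm] using hcv))
  have h2 : e - c • v ∈ N := interior_subset (hball (by
    simpa [Metric.mem_ball, dist_eq_norm, norm_sub_rev] using hcv))
  have h3 := ha _ h1
  have h4 := ha _ h2
  rw [map_add, map_smul, hae, smul_eq_mul] at h3
  rw [map_sub, map_smul, hae, smul_eq_mul] at h4
  have h5 : c * a v = 0 := by linarith
  exact (mul_eq_zero.1 h5).resolve_left hc0.ne'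

/-- A point outside the closed cone `N` is detected by an extremal ray of the dual cone. -/
theorem exists_extremalRay {N : PointedCone ℝ V} (hN : IsClosed (N : Set V))
    (hint : (interior (N : Set V)).Nonempty) {x : V} (hx : x ∉ N) :
    ∃ z : V →L[ℝ] ℝ, IsExtremalRay N z ∧ z x < 0 := by
  obtain ⟨e, he⟩ := hint
  have heN : e ∈ N := interior_subset he
  -- the base of the dual cone
  set B : Set (V →L[ℝ] ℝ) := {φ | (∀ y ∈ N, 0 ≤ φ y) ∧ φ e = 1} with hB
  have hev : ∀ y : V, Continuous fun φ : V →L[ℝ] ℝ => φ y := fun y =>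
    (ContinuousLinearMap.apply ℝ ℝ y).continuous
  have hBclosed : IsClosed B := by
    have : B = (⋂ y ∈ N, {φ : V →L[ℝ] ℝ | 0 ≤ φ y}) ∩ {φ | φ e = 1} := by
      ext φ
      simp only [hB, mem_ofPred_eq, mem_inter_iff, mem_iInter]
    rw [this]
    refine (isClosed_biInter fun y _ => isClosed_le continuous_const (hev y)).inter
      (isClosed_eq (hev e) continuous_const)
  have hBconv : Convex ℝ B := by
    intro φ hφ ψ hψ s t hs ht hst
    refine ⟨fun y hy => ?_, ?_⟩
    · rw [add_apply, smul_apply, smul_apply, smul_eq_mul, smul_eq_mul]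
      have := hφ.1 y hy
      have := hψ.1 y hy
      positivity
    · rw [add_apply, smul_apply, smul_apply, smul_eq_mul, smul_eq_mul, hφ.2, hψ.2]
      linarith
  obtain ⟨δ, hδ, hball⟩ := Metric.isOpen_iff.1 isOpen_interior e he
  have hBbdd : B ⊆ Metric.closedBall 0 (2 / δ) := by
    intro φ hφ
    rw [mem_closedBall_zero_iff]
    refine φ.opNorm_le_bound (by positivity) fun v => ?_
    by_cases hv : v = 0
    · simp [hv]
    have hnv : 0 < ‖v‖ := norm_pos_iff.2 hv
    set c : ℝ := δ / (2 * ‖v‖) with hc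
    have hc0 : 0 < c := by positivity
    have hcv : ‖c • v‖ < δ := by
      rw [norm_smul, Real.norm_of_nonneg hc0.le, hc, div_mul_eq_mul_div,
        div_lt_iff₀ (by positivity)]
      nlinarith
    have h1 : e + c • v ∈ N := interior_subset (hball (by
      simpa [Metric.mem_ball, dist_eq_norm] using hcv))
    have h2 : e - c • v ∈ N := interior_subset (hball (by
      simpa [Metric.mem_ball, dist_eq_norm, norm_sub_rev] using hcv))
    have h3 := hφ.1 _ h1
    have h4 := hφ.1 _ h2
    rw [map_add, map_smul, hφ.2, smul_eq_mul] at h3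
    rw [map_sub, map_smul, hφ.2, smul_eq_mul] at h4
    have h5 : c * |φ v| ≤ 1 := by
      rw [← abs_of_pos hc0, ← abs_mul, abs_le]
      constructor <;> linarith
    rw [Real.norm_eq_abs]
    have h6 : |φ v| ≤ 1 / c := by
      rw [le_div_iff₀ hc0]
      linarith
    calc |φ v| ≤ 1 / c := h6
      _ = 2 / δ * ‖v‖ := by rw [hc]; field_simp
  have hBcomp : IsCompact B :=
    (isCompact_closedBall (0 : V →L[ℝ] ℝ) (2 / δ)).of_isClosed_subset hBclosed hBbdd
  -- separation
  let C : ProperCone ℝ V := ⟨N, hN⟩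
  have hxC : x ∉ C := hx
  obtain ⟨φ, hφ, hφx⟩ := C.hyperplane_separation_point hxC
  have hφ' : ∀ y ∈ N, 0 ≤ φ y := fun y hy => hφ y hy
  have hφe : 0 < φ e := by
    refine lt_of_le_of_ne (hφ' e heN) fun h => ?_
    have := eq_zero_of_interior he φ hφ' h.symm
    rw [this] at hφx
    simp at hφx
  have hφB : (φ e)⁻¹ • φ ∈ B := by
    refine ⟨fun y hy => ?_, ?_⟩
    · rw [smul_apply, smul_eq_mul]
      have := hφ' y hy
      positivity
    · rw [smul_apply, smul_eq_mul, inv_mul_cancel₀ hφe.ne']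
  -- an extreme point
  obtain ⟨z, hz, hzx⟩ : ∃ z ∈ B.extremePoints ℝ, z x < 0 := by
    by_contra hcon
    push Not at hcon
    have h1 := closure_convexHull_extremePoints hBcomp hBconv
    have h2 : closure (convexHull ℝ (B.extremePoints ℝ)) ⊆ {ψ : V →L[ℝ] ℝ | 0 ≤ ψ x} := by
      refine closure_minimal (convexHull_min hcon ?_) (isClosed_le continuous_const (hev x))
      intro ψ hψ χ hχ s t hs ht _
      show 0 ≤ (s • ψ + t • χ) x
      rw [add_apply, smul_apply, smul_apply, smul_eq_mul, smul_eq_mul]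
      have h3 : 0 ≤ ψ x := hψ
      have h4 : 0 ≤ χ x := hχ
      positivity
    rw [h1] at h2
    have h3 : 0 ≤ ((φ e)⁻¹ • φ) x := h2 hφB
    rw [smul_apply, smul_eq_mul] at h3
    have h4 : (φ e)⁻¹ * φ x < 0 := mul_neg_of_pos_of_neg (by positivity) hφx
    linarith
  refine ⟨z, ⟨?_, hz.1.1, ?_⟩, hzx⟩
  · intro h
    have := hz.1.2
    rw [h] at this
    simp at this
  · intro a b ha hb hab
    have hsum : a e + b e = 1 := by
      rw [← hz.1.2, ← hab, add_apply]
    rcases (ha e heN).eq_or_lt with h0 | h0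
    · exact ⟨0, by rw [zero_smul]; exact eq_zero_of_interior he a ha h0.symm⟩
    rcases (hb e heN).eq_or_lt with h1 | h1
    · have := eq_zero_of_interior he b hb h1.symm
      rw [this, add_zero] at hab
      exact ⟨1, by rw [one_smul, hab]⟩
    refine ⟨a e, ?_⟩
    have haB : (a e)⁻¹ • a ∈ B := by
      refine ⟨fun y hy => ?_, ?_⟩
      · rw [smul_apply, smul_eq_mul]
        have := ha y hy
        positivity
      · rw [smul_apply, smul_eq_mul, inv_mul_cancel₀ h0.ne']
    have hbB : (b e)⁻¹ • b ∈ B := by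
      refine ⟨fun y hy => ?_, ?_⟩
      · rw [smul_apply, smul_eq_mul]
        have := hb y hy
        positivity
      · rw [smul_apply, smul_eq_mul, inv_mul_cancel₀ h1.ne']
    have hseg : z ∈ openSegment ℝ ((a e)⁻¹ • a) ((b e)⁻¹ • b) := by
      refine ⟨a e, b e, h0, h1, hsum, ?_⟩
      rw [smul_smul, smul_smul, mul_inv_cancel₀ h0.ne', mul_inv_cancel₀ h1.ne', one_smul, one_smul,
        hab]
    have h2 : (a e)⁻¹ • a = z := hz.2 haB hbB hseg
    rw [← h2, smul_smul, mul_inv_cancel₀ h0.ne', one_smul]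

end extremal

end Pool.Agent.Lib.Pad47bbK
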