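import Pool.Agent.Lib.Pad47bbK.Cone
import Pool.Agent.Lib.Pad47bbB.Eff

/-!
A klt Calabi-Yau pair gives the data `BdPair`.
-/

open Set Topology

namespace Pool.Agent.Lib.Pad47bbK

open Pool.Agent.Lib.Pad47bb Pool.Agent.Lib.Pad47bbB Pool.Agent.Lib.Pad47bbV

variable {V : Type*} [NormedAddCommGroup V] [NormedSpace ℝ V] [FiniteDimensional ℝ V]

/-- The functionals of the cone theorem on the components of the boundary and on `S`. -/
theorem KltPair.bdOn (P : KltPair V) [DiscreteTopology P.L] [IsZLattice ℝ P.L]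
    (S : Finset V) (hS : ∀ y ∈ S, y ∈ P.eff) :
    ∃ Ξ : Set (V →L[ℝ] ℝ), BdOn P.L P.nef P.comp S Ξ := by
  obtain ⟨B, hB⟩ := P.exists_detect S hS
  refine ⟨{ξ | (∀ x ∈ P.L, ∃ k : ℤ, ξ x = k) ∧ (∀ x ∈ P.nef, 0 ≤ ξ x) ∧
    (∀ p ∈ P.comp, |ξ p| ≤ B) ∧ ∀ y ∈ S, -B ≤ ξ y}, fun ξ hξ => hξ.1, fun ξ hξ => hξ.2.1,
    ⟨B, fun ξ hξ => hξ.2.2⟩, fun x h1 h2 => ?_⟩
  by_contra hx
  obtain ⟨z, hz0, hzx, hz⟩ := hB x hx
  rcases hz with hz | hz
  · exact absurd (h1 z hz0 hz.1 hz.2) (not_le.2 hzx)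
  · exact absurd (h2 z ⟨hz.1, hz0, hz.2⟩) (not_le.2 hzx)

omit [FiniteDimensional ℝ V] in
/-- The base point free theorem modulo the span of the components of the boundary. -/
theorem KltPair.eff_of_sub (P : KltPair V) {x : V} (hxL : x ∈ P.L) (hx : x ∈ P.nef)
    (h : ∃ w ∈ Submodule.span ℝ (P.comp : Set V), x - w ∈ interior (P.nef : Set V)) :
    x ∈ P.eff := by
  classical
  obtain ⟨w, hw, hxw⟩ := h
  obtain ⟨c, hc⟩ : ∃ c : V → ℝ, w = ∑ p ∈ P.comp, c p • p := by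
    rw [Submodule.mem_span_finset] at hw
    obtain ⟨c, -, hc⟩ := hw
    exact ⟨c, hc.symm⟩
  obtain ⟨ε, hε, hk⟩ := P.near 0 P.eff.zero_mem
  set C : ℝ := 1 + ∑ p ∈ P.comp, |c p| with hC
  have hC0 : 0 < C := by
    have : 0 ≤ ∑ p ∈ P.comp, |c p| := Finset.sum_nonneg fun p _ => abs_nonneg _
    rw [hC]; linarith
  set a : ℝ := ε / C with ha
  have ha0 : 0 < a := by positivity
  have hwk : a • w ∈ P.klt := by
    have h1 := hk (fun p => a * c p) (fun p hp => by
      rw [abs_mul, abs_of_pos ha0, ha, div_mul_eq_mul_div, div_le_iff₀ hC0]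
      have h2 : |c p| ≤ ∑ p ∈ P.comp, |c p| :=
        Finset.single_le_sum (f := fun p => |c p|) (fun q _ => abs_nonneg _) hp
      have h3 : |c p| ≤ C := by rw [hC]; linarith
      exact mul_le_mul_of_nonneg_left h3 hε.le)
    have h2 : ε • (0 : V) + ∑ p ∈ P.comp, (a * c p) • p = a • w := by
      rw [smul_zero, zero_add, hc, Finset.smul_sum]
      exact Finset.sum_congr rfl fun p _ => by rw [smul_smul]
    rw [h2] at h1
    exact h1
  refine P.bpf x hxL hx (a • w) hwk a ha0 ?_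
  rw [← smul_sub]
  exact interior_smul' hxw ha0

/-- The data of the cone conjecture modulo the boundary of a klt Calabi-Yau pair. -/
theorem KltPair.bdPair (P : KltPair V) [DiscreteTopology P.L] [IsZLattice ℝ P.L] :
    BdPair P.L P.nef P.eff P.comp P.aut where
  good := ⟨P.isClosed_nef, fun x hx hx' => P.eff_salient x (P.nef_subset hx) (P.nef_subset hx'),
    P.interior_nef_nonempty⟩
  acts := ⟨P.map_lattice, P.map_nef⟩
  eff_map := P.map_eff
  int_le := P.ample_subset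
  eff_salient := P.eff_salient
  eff_gen := by
    intro x hx
    rw [P.eff_eq] at hx
    obtain ⟨S, hS, hxS⟩ := Submodule.mem_span_finite_of_mem_span hx
    exact ⟨S, fun y hy => ⟨(hS hy).2, (hS hy).1⟩, hxS⟩
  comp := fun p hp => ⟨P.comp_lattice p hp, P.comp_eff p hp⟩
  perm := P.map_comp
  cone := fun S hS => P.bdOn S fun y hy => (hS y hy).2
  bpf := fun x hxL hx h => P.eff_of_sub hxL hx h

end Pool.Agent.Lib.Pad47bbK
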